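import Pool.Agent.Helper6.MONO.Stmts

/-!
Monotonicity of the Cartan invariant in the phase parameter.
-/

set_option autoImplicit false
noncomputable section
namespace Pool.Agent.Helper6.MONO

theorem cmo_alg (P Q S w : ℝ) (hP : 2 ≤ P) (hQ : 2 ≤ Q) (hS : 2 ≤ S) (hw : 0 < w) :
    0 < 1 + (Q * S - 4 * P) / (Q * S + 4 * P + 4 * w) +
      (S * P - 4 * Q) / (S * P + 4 * Q + 4 * w) + (P * Q - 4 * S) / (P * Q + 4 * S + 4 * w) := by
  obtain ⟨a, rfl⟩ : ∃ a, P = 2 + a := ⟨P - 2, by ring⟩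
  obtain ⟨b, rfl⟩ : ∃ a, Q = 2 + a := ⟨Q - 2, by ring⟩
  obtain ⟨c, rfl⟩ : ∃ a, S = 2 + a := ⟨S - 2, by ring⟩
  have ha : 0 ≤ a := by linarith
  have hb : 0 ≤ b := by linarith
  have hc : 0 ≤ c := by linarith
  have h1 : 0 < (2 + b) * (2 + c) + 4 * (2 + a) + 4 * w := by positivity
  have h2 : 0 < (2 + c) * (2 + a) + 4 * (2 + b) + 4 * w := by positivity
  have h3 : 0 < (2 + a) * (2 + b) + 4 * (2 + c) + 4 * w := by positivity
  have key : 1 + ((2 + b) * (2 + c) - 4 * (2 + a)) / ((2 + b) * (2 + c) + 4 * (2 + a) + 4 * w) +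
      ((2 + c) * (2 + a) - 4 * (2 + b)) / ((2 + c) * (2 + a) + 4 * (2 + b) + 4 * w) +
      ((2 + a) * (2 + b) - 4 * (2 + c)) / ((2 + a) * (2 + b) + 4 * (2 + c) + 4 * w) =
      (((2 + b) * (2 + c) + 4 * (2 + a) + 4 * w) * ((2 + c) * (2 + a) + 4 * (2 + b) + 4 * w) *
        ((2 + a) * (2 + b) + 4 * (2 + c) + 4 * w) +
        ((2 + b) * (2 + c) - 4 * (2 + a)) * ((2 + c) * (2 + a) + 4 * (2 + b) + 4 * w) *
        ((2 + a) * (2 + b) + 4 * (2 + c) + 4 * w) +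
        ((2 + c) * (2 + a) - 4 * (2 + b)) * ((2 + b) * (2 + c) + 4 * (2 + a) + 4 * w) *
        ((2 + a) * (2 + b) + 4 * (2 + c) + 4 * w) +
        ((2 + a) * (2 + b) - 4 * (2 + c)) * ((2 + b) * (2 + c) + 4 * (2 + a) + 4 * w) *
        ((2 + c) * (2 + a) + 4 * (2 + b) + 4 * w)) /
      (((2 + b) * (2 + c) + 4 * (2 + a) + 4 * w) * ((2 + c) * (2 + a) + 4 * (2 + b) + 4 * w) *
        ((2 + a) * (2 + b) + 4 * (2 + c) + 4 * w)) := by
    field_simp
  rw [key]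
  refine div_pos ?_ (by positivity)
  ring_nf
  positivity

theorem cmo_term (h l m x : ℝ) (hh : 0 < h) (hl : 0 < l) (hm : 0 < m) (hx : 0 ≤ x) (hx1 : x < 1) :
    (1 + x) * (dl1 h l m / (1 + (dl1 h l m) ^ 2 * x)) =
      (l ^ 2 * m ^ 2 - 4 * h ^ 2) /
        (l ^ 2 * m ^ 2 + 4 * h ^ 2 + 4 * (h * l * m * (1 - x) / (1 + x))) := by
  unfold dl1
  have h1 : 0 < l * m + 2 * h := by positivity
  have h2 : 0 < 1 + x := by linarith
  have h4 : 0 < 1 - x := by linarith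
  have h3 : 0 < (l * m + 2 * h) ^ 2 + (l * m - 2 * h) ^ 2 * x := by positivity
  have h5 : 0 < l ^ 2 * m ^ 2 + 4 * h ^ 2 + 4 * (h * l * m * (1 - x) / (1 + x)) := by positivity
  have e1 : (l * m - 2 * h) / (l * m + 2 * h) /
      (1 + ((l * m - 2 * h) / (l * m + 2 * h)) ^ 2 * x) =
      (l * m - 2 * h) * (l * m + 2 * h) / ((l * m + 2 * h) ^ 2 + (l * m - 2 * h) ^ 2 * x) := by
    have h6 : (1 + ((l * m - 2 * h) / (l * m + 2 * h)) ^ 2 * x) =
        ((l * m + 2 * h) ^ 2 + (l * m - 2 * h) ^ 2 * x) / (l * m + 2 * h) ^ 2 := by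
      field_simp
    rw [h6]
    field_simp
  have e2 : l ^ 2 * m ^ 2 + 4 * h ^ 2 + 4 * (h * l * m * (1 - x) / (1 + x)) =
      ((l * m + 2 * h) ^ 2 + (l * m - 2 * h) ^ 2 * x) / (1 + x) := by
    field_simp
    ring
  rw [e1, e2]
  field_simp
  ring

theorem st_CMO : ST_CMO := by
  intro h l m hh hh2 hl hl2 hm hm2
  have hs : 0 < Real.sqrt 2 := by positivity
  have hh0 : 0 < h := by linarith
  have hl0 : 0 < l := by linarith
  have hm0 : 0 < m := by linarith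
  have sq2 : ∀ y : ℝ, Real.sqrt 2 ≤ y → 2 ≤ y ^ 2 := by
    intro y hy
    have := Real.sq_sqrt (show (0 : ℝ) ≤ 2 by norm_num)
    nlinarith
  have hP := sq2 h hh
  have hQ := sq2 l hl
  have hS := sq2 m hm
  have hd : ∀ t : ℝ, HasDerivAt (tC h l m)
      (1 / (1 + t ^ 2) + 1 / (1 + (dl1 h l m * t) ^ 2) * dl1 h l m +
        1 / (1 + (dl1 l m h * t) ^ 2) * dl1 l m h +
        1 / (1 + (dl1 m h l * t) ^ 2) * dl1 m h l) t := by
    intro t
    have ht : ∀ d : ℝ, HasDerivAt (fun x => Real.arctan (d * x)) (1 / (1 + (d * t) ^ 2) * d) t := by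
      intro d
      have h1 : HasDerivAt (fun x : ℝ => d * x) d t := by
        simpa using (hasDerivAt_id t).const_mul d
      exact h1.arctan
    have h0 := Real.hasDerivAt_arctan t
    exact ((h0.add (ht _)).add (ht _)).add (ht _)
  refine strictMonoOn_of_deriv_pos (convex_Icc 0 1) ?_ ?_
  · intro t _
    exact (hd t).continuousAt.continuousWithinAt
  · intro t ht
    rw [interior_Icc] at ht
    obtain ⟨ht0, ht1⟩ := ht
    rw [(hd t).deriv]
    have hx : 0 ≤ t ^ 2 := by positivity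
    have hx1 : t ^ 2 < 1 := by nlinarith
    have hx2 : 0 < 1 + t ^ 2 := by positivity
    have A := cmo_alg (h ^ 2) (l ^ 2) (m ^ 2) (h * l * m * (1 - t ^ 2) / (1 + t ^ 2)) hP hQ hS
      (by
        have : 0 < 1 - t ^ 2 := by linarith
        positivity)
    have e1 := cmo_term h l m (t ^ 2) hh0 hl0 hm0 hx hx1
    have e2 := cmo_term l m h (t ^ 2) hl0 hm0 hh0 hx hx1
    have e3 := cmo_term m h l (t ^ 2) hm0 hh0 hl0 hx hx1
    have w2 : l * m * h * (1 - t ^ 2) / (1 + t ^ 2) = h * l * m * (1 - t ^ 2) / (1 + t ^ 2) := by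
      ring
    have w3 : m * h * l * (1 - t ^ 2) / (1 + t ^ 2) = h * l * m * (1 - t ^ 2) / (1 + t ^ 2) := by
      ring
    rw [w2] at e2
    rw [w3] at e3
    rw [← e1, ← e2, ← e3] at A
    have B : 1 + (1 + t ^ 2) * (dl1 h l m / (1 + (dl1 h l m) ^ 2 * t ^ 2)) +
        (1 + t ^ 2) * (dl1 l m h / (1 + (dl1 l m h) ^ 2 * t ^ 2)) +
        (1 + t ^ 2) * (dl1 m h l / (1 + (dl1 m h l) ^ 2 * t ^ 2)) =
        (1 + t ^ 2) * (1 / (1 + t ^ 2) + 1 / (1 + (dl1 h l m * t) ^ 2) * dl1 h l m +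
        1 / (1 + (dl1 l m h * t) ^ 2) * dl1 l m h +
        1 / (1 + (dl1 m h l * t) ^ 2) * dl1 m h l) := by
      have g : ∀ d : ℝ, d / (1 + d ^ 2 * t ^ 2) = 1 / (1 + (d * t) ^ 2) * d := by
        intro d
        rw [mul_pow]
        ring
      rw [g, g, g]
      have : (1 + t ^ 2) * (1 / (1 + t ^ 2)) = 1 := by field_simp
      linear_combination -this
    rw [B] at A
    exact (pos_iff_pos_of_mul_pos A).mp hx2

end Pool.Agent.Helper6.MONO
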