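import Pool.Agent.Helper6.MONO.Stmts

/-!
The null relation is preserved by the block step.
-/

set_option autoImplicit false
noncomputable section
namespace Pool.Agent.Helper6.MONO

/-- clearing the denominator -/
theorem nri_red (s Nr Ni Dr Di yf A B b0' σ : ℝ) (hσ : σ * σ = 1)
    (hn : Dr * Dr + s * (Di * Di) ≠ 0)
    (H : yf * Dr = (Nr * Nr + s * (Ni * Ni)) + A * (Dr * Dr + s * (Di * Di)) +
      B * (yf * yf) + s * b0' * σ * (yf * Di)) :
    yf * Dr / (Dr * Dr + s * (Di * Di)) =
      ((Nr * Dr + s * (Ni * Di)) / (Dr * Dr + s * (Di * Di))) *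
        ((Nr * Dr + s * (Ni * Di)) / (Dr * Dr + s * (Di * Di))) +
      s * ((σ * ((Ni * Dr - Nr * Di) / (Dr * Dr + s * (Di * Di)))) *
        (σ * ((Ni * Dr - Nr * Di) / (Dr * Dr + s * (Di * Di))))) + A +
      B * ((yf * Dr / (Dr * Dr + s * (Di * Di))) * (yf * Dr / (Dr * Dr + s * (Di * Di))) +
        s * ((σ * (-(yf * Di / (Dr * Dr + s * (Di * Di))))) *
          (σ * (-(yf * Di / (Dr * Dr + s * (Di * Di))))))) -
      s * (b0' * (σ * (-(yf * Di / (Dr * Dr + s * (Di * Di)))))) := by
  set n := Dr * Dr + s * (Di * Di) with hnd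
  have e1 : ((Nr * Dr + s * (Ni * Di)) / n) * ((Nr * Dr + s * (Ni * Di)) / n) +
      s * ((σ * ((Ni * Dr - Nr * Di) / n)) * (σ * ((Ni * Dr - Nr * Di) / n))) =
      (Nr * Nr + s * (Ni * Ni)) / n := by
    field_simp
    have : σ ^ 2 = 1 := by rw [pow_two]; exact hσ
    rw [this, hnd]
    ring
  have e2 : (yf * Dr / n) * (yf * Dr / n) + s * ((σ * (-(yf * Di / n))) * (σ * (-(yf * Di / n)))) =
      yf * yf / n := by
    field_simp
    have : σ ^ 2 = 1 := by rw [pow_two]; exact hσ
    rw [this, hnd]
    ring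
  rw [e1, e2]
  field_simp
  linear_combination H

/-- `σ` of the two cases -/
theorem nri_sg (b : Bool) (x : ℝ) : rsg b x = (if b then 1 else -1) * x := by
  cases b <;> simp [rsg_true, rsg_false]

theorem nri_sq (b : Bool) : (if b then (1 : ℝ) else -1) * (if b then 1 else -1) = 1 := by
  cases b <;> norm_num

/-- even blocks -/
theorem nri_even (s g Sb td R a b be yr σ b0 : ℝ) (hσ : σ * σ = 1) (hb : b0 = 4 * g - 1)
    (h : yr = a * a + s * (b * b) + td + Sb * (g * g) * (1 + s) * (yr * yr + s * (be * be))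
      - s * (b0 * be)) :
    let Xr := σ * (a - s * b)
    let Xi := a + b
    let Yr := (1 + s) * yr
    let Yi := (1 + s) * (σ * be)
    let Dr := 1 + 2 * (R * g) * Xr + ((R * R) - Sb) * (g * g) * Yr + 0
    let Di := 2 * (R * g) * Xi + ((R * R) - Sb) * (g * g) * Yi + σ * b0
    let Nr := R + ((R * R) - Sb) * g * Xr - 2 * (Sb * R * (g * g)) * Yr
    let Ni := R * (σ * b0) + ((R * R) - Sb) * g * Xi - 2 * (Sb * R * (g * g)) * Yi
    (R * R + Sb) * Dr = (Nr * Nr + s * (Ni * Ni)) + Sb * (Dr * Dr + s * (Di * Di)) +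
      (td * (g * g) * (1 + s)) * ((R * R + Sb) * (R * R + Sb)) +
      s * b0 * (-σ) * ((R * R + Sb) * Di) := by
  intro Xr Xi Yr Yi Dr Di Nr Ni
  simp only [Xr, Xi, Yr, Yi, Dr, Di, Nr, Ni]
  have h2 : σ = 1 ∨ σ = -1 := by
    have : (σ - 1) * (σ + 1) = 0 := by linear_combination hσ
    rcases mul_eq_zero.mp this with h | h
    · left; linarith
    · right; linarith
  subst hb
  rcases h2 with rfl | rfl
  · linear_combination ((1 + s) * (g * g) * ((R * R + Sb) * (R * R + Sb))) * h
  · linear_combination ((1 + s) * (g * g) * ((R * R + Sb) * (R * R + Sb))) * h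

/-- odd blocks -/
theorem nri_odd (s g Sb td R a b be yr σ b0 η ζ ν0 cr bp tg : ℝ) (hσ : σ * σ = 1)
    (hb : b0 = 4 * g - 1)
    (h : yr = a * a + s * (b * b) + td + Sb * (g * g) * (1 + s) * (yr * yr + s * (be * be))
      - s * (b0 * be))
    (h1 : cr - 1 = 2 * Sb * ν0 * η) (h2 : bp + b0 = -2 * Sb * ν0 * ζ)
    (h3 : cr * ν0 * η - Sb * ν0 ^ 2 * η ^ 2 + (td * (g * g) - tg) = 0)
    (h4 : -Sb * ν0 ^ 2 * ζ ^ 2 + (td * (g * g) - tg) - bp * ν0 * ζ = 0) :
    let W := R * R + Sb
    let Xr := σ * (a - s * b)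
    let Xi := a + b
    let Yr := (1 + s) * yr
    let Yi := (1 + s) * (σ * be)
    let Dr := 1 + 2 * (R * g) * Xr + ((R * R) - Sb) * (g * g) * Yr + η * (ν0 * W)
    let Di := 2 * (R * g) * Xi + ((R * R) - Sb) * (g * g) * Yi + σ * (b0 + ζ * (ν0 * W))
    let Nr := R + ((R * R) - Sb) * g * Xr - 2 * (Sb * R * (g * g)) * Yr
    let Ni := R * (σ * b0) + ((R * R) - Sb) * g * Xi - 2 * (Sb * R * (g * g)) * Yi
    (cr * W) * Dr = (Nr * Nr + s * (Ni * Ni)) + Sb * (Dr * Dr + s * (Di * Di)) +
      tg * (1 + s) * (W * W) + s * σ * bp * (W * Di) := by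
  intro W Xr Xi Yr Yi Dr Di Nr Ni
  simp only [W, Xr, Xi, Yr, Yi, Dr, Di, Nr, Ni]
  have E := nri_even s g Sb td R a b be yr σ b0 hσ hb h
  simp only [] at E
  have h2' : σ = 1 ∨ σ = -1 := by
    have : (σ - 1) * (σ + 1) = 0 := by linear_combination hσ
    rcases mul_eq_zero.mp this with h | h
    · left; linarith
    · right; linarith
  rcases h2' with rfl | rfl
  · linear_combination E + (R * R + Sb) * (1 + 2 * (R * g) * (1 * (a - s * b)) +
      ((R * R) - Sb) * (g * g) * ((1 + s) * yr)) * h1 -
      s * (R * R + Sb) * (2 * (R * g) * (a + b) +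
      ((R * R) - Sb) * (g * g) * ((1 + s) * (1 * be)) + 1 * b0) * h2 +
      (R * R + Sb) ^ 2 * h3 + s * (R * R + Sb) ^ 2 * h4
  · linear_combination E + (R * R + Sb) * (1 + 2 * (R * g) * (-1 * (a - s * b)) +
      ((R * R) - Sb) * (g * g) * ((1 + s) * yr)) * h1 +
      s * (R * R + Sb) * (2 * (R * g) * (a + b) +
      ((R * R) - Sb) * (g * g) * ((1 + s) * (-1 * be)) + -1 * b0) * h2 +
      (R * R + Sb) ^ 2 * h3 + s * (R * R + Sb) ^ 2 * h4

theorem nri_g (k hd he : ℝ) (hk : 0 < k) (hd0 : 0 < hd) (he0 : 0 < he) :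
    gP k hd he = k * hd / (2 * (k * hd + 2 * he)) := by
  unfold gP
  field_simp

theorem nri_eta (k hd he : ℝ) (hk : 0 < k) (hd0 : 0 < hd) (he0 : 0 < he) :
    etaP k hd he = 2 * (hd - he) / (k * hd + 2 * he) := by
  unfold etaP
  rw [nri_g k hd he hk hd0 he0]
  field_simp
  ring

theorem nri_zet (k hd he : ℝ) (hk : 0 < k) (hd0 : 0 < hd) (he0 : 0 < he) :
    zetP k hd he = 2 * (hd + he) / (k * hd + 2 * he) := by
  unfold zetP
  rw [nri_g k hd he hk hd0 he0]
  field_simp
  ring

theorem nri_b0 (k hd he : ℝ) (hk : 0 < k) (hd0 : 0 < hd) (he0 : 0 < he) :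
    b0P k hd he = (k * hd - 2 * he) / (k * hd + 2 * he) := by
  unfold b0P
  rw [nri_g k hd he hk hd0 he0]
  field_simp
  ring

theorem nri_Cr (k hd he R : ℝ) (hk : 0 < k) :
    CrP false k hd he R = etaP k hd he * (k ^ 2 / (4 * (2 + k)) * (R * R + SbP k)) := by
  have : CrP false k hd he R = etaP k hd he * ((1 / 4) * (2 - k) + qP k R) := rfl
  rw [this]
  unfold qP SbP
  congr 1
  field_simp
  ring

theorem nri_Ci (k hd he R : ℝ) (hk : 0 < k) (hd0 : 0 < hd) (he0 : 0 < he) :
    CiP false k hd he R =
      b0P k hd he + zetP k hd he * (k ^ 2 / (4 * (2 + k)) * (R * R + SbP k)) := by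
  have : CiP false k hd he R =
    (1 / 4) * (2 + k) * etaP k hd he + qP k R * zetP k hd he := rfl
  rw [this, nri_eta k hd he hk hd0 he0, nri_zet k hd he hk hd0 he0, nri_b0 k hd he hk hd0 he0]
  unfold qP SbP
  field_simp
  ring

theorem st_NRI : ST_NRI := by
  intro s k hd he R ε ev z hs hk hd0 he0 hNR hn
  have hne : vDr s ε ev z k hd he R * vDr s ε ev z k hd he R
    + s * (vDi s ε ev z k hd he R * vDi s ε ev z k hd he R) ≠ 0 := hn
  have hc : 0 < k * hd + 2 * he := by positivity
  have hc' : 0 < he * k + 2 * hd := by positivity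
  cases ev with
  | true =>
    have hg : gP hd k he = gP k hd he := by
      rw [nri_g k hd he hk hd0 he0, nri_g hd k he hd0 hk he0]
      ring
    have hb : b0P hd k he = b0P k hd he := by
      unfold b0P
      rw [hg]
    have K := nri_red s (vNr s ε z k hd he R) (vNi s ε z k hd he R) (vDr s ε true z k hd he R)
      (vDi s ε true z k hd he R) (yfP true k hd he R) (SbP k)
      (SbP hd * (gP k hd he * gP k hd he) * (1 + s)) (b0P k hd he)
      (if (!(cjP ε true)) then 1 else -1) (nri_sq _) hne (by
        have E := nri_even s (gP k hd he) (SbP k) (SbP hd) R z.a z.b z.be z.yr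
          (if ε then 1 else -1) (b0P k hd he) (nri_sq _) rfl hNR
        simp only [] at E
        have hy : yfP true k hd he R = R * R + SbP k := by
          show 1 * (R * R + SbP k) = _
          ring
        have hsg : (if (!(cjP ε true)) then (1 : ℝ) else -1) = -(if ε then 1 else -1) := by
          cases ε <;> simp [cjP]
        rw [hy, hsg]
        have e1 : vDr s ε true z k hd he R = 1 + 2 * (R * gP k hd he) *
            ((if ε then 1 else -1) * (z.a - s * z.b)) + ((R * R) - SbP k) *
            (gP k hd he * gP k hd he) * ((1 + s) * z.yr) + 0 := by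
          rw [← nri_sg]; rfl
        have e2 : vDi s ε true z k hd he R = 2 * (R * gP k hd he) * (z.a + z.b) +
            ((R * R) - SbP k) * (gP k hd he * gP k hd he) *
            ((1 + s) * ((if ε then 1 else -1) * z.be)) + (if ε then 1 else -1) * b0P k hd he := by
          rw [← nri_sg, ← nri_sg]; rfl
        have e3 : vNr s ε z k hd he R = R + ((R * R) - SbP k) * gP k hd he *
            ((if ε then 1 else -1) * (z.a - s * z.b)) - 2 * (SbP k * R *
            (gP k hd he * gP k hd he)) * ((1 + s) * z.yr) := by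
          rw [← nri_sg]; rfl
        have e4 : vNi s ε z k hd he R = R * ((if ε then 1 else -1) * b0P k hd he) +
            ((R * R) - SbP k) * gP k hd he * (z.a + z.b) -
            2 * (SbP k * R * (gP k hd he * gP k hd he)) *
            ((1 + s) * ((if ε then 1 else -1) * z.be)) := by
          rw [← nri_sg, ← nri_sg]; rfl
        rw [e1, e2, e3, e4]
        exact E)
    show NR s hd k he (vstep s ε true z k hd he R)
    unfold NR
    rw [hg, hb]
    simp only [vstep, vwr, vwi, nri_sg]
    exact K
  | false =>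
    have hg := nri_g k hd he hk hd0 he0
    have hg' := nri_g he k hd he0 hk hd0
    have hb := nri_b0 k hd he hk hd0 he0
    have hb' := nri_b0 he k hd he0 hk hd0
    have het := nri_eta k hd he hk hd0 he0
    have hze := nri_zet k hd he hk hd0 he0
    have hcr : crP false k hd he = (k * he + 2 * hd) / (k * hd + 2 * he) := by
      have : crP false k hd he = 1 + (1 / 2) * (2 - k) * etaP k hd he := rfl
      rw [this, het]
      field_simp
      ring
    have K := nri_red s (vNr s ε z k hd he R) (vNi s ε z k hd he R) (vDr s ε false z k hd he R)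
      (vDi s ε false z k hd he R) (yfP false k hd he R) (SbP k)
      (SbP he * (gP he k hd * gP he k hd) * (1 + s)) (b0P he k hd)
      (if (!(cjP ε false)) then 1 else -1) (nri_sq _) hne (by
        have E := nri_odd s (gP k hd he) (SbP k) (SbP hd) R z.a z.b z.be z.yr
          (if ε then 1 else -1) (b0P k hd he) (etaP k hd he) (zetP k hd he)
          (k ^ 2 / (4 * (2 + k))) (crP false k hd he) (b0P he k hd * crP false k hd he)
          (SbP he * (gP he k hd * gP he k hd) * (crP false k hd he) ^ 2)
          (nri_sq _) rfl hNR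
          (by
            rw [hcr, het]; unfold SbP
            field_simp
            ring)
          (by
            rw [hb', hcr, hb, hze]; unfold SbP
            field_simp
            ring)
          (by
            rw [hcr, het, hg, hg']; unfold SbP
            field_simp
            ring)
          (by
            rw [hb', hcr, hze, hg, hg']; unfold SbP
            field_simp
            ring)
        simp only [] at E
        have hy : yfP false k hd he R = crP false k hd he * (R * R + SbP k) := rfl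
        have hsg : (if (!(cjP ε false)) then (1 : ℝ) else -1) = (if ε then 1 else -1) := by
          cases ε <;> simp [cjP]
        rw [hy, hsg]
        have e1 : vDr s ε false z k hd he R = 1 + 2 * (R * gP k hd he) *
            ((if ε then 1 else -1) * (z.a - s * z.b)) + ((R * R) - SbP k) *
            (gP k hd he * gP k hd he) * ((1 + s) * z.yr) +
            etaP k hd he * (k ^ 2 / (4 * (2 + k)) * (R * R + SbP k)) := by
          rw [← nri_sg, ← nri_Cr k hd he R hk]; rfl
        have e2 : vDi s ε false z k hd he R = 2 * (R * gP k hd he) * (z.a + z.b) +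
            ((R * R) - SbP k) * (gP k hd he * gP k hd he) *
            ((1 + s) * ((if ε then 1 else -1) * z.be)) + (if ε then 1 else -1) *
            (b0P k hd he + zetP k hd he * (k ^ 2 / (4 * (2 + k)) * (R * R + SbP k))) := by
          rw [← nri_sg, ← nri_sg, ← nri_Ci k hd he R hk hd0 he0]; rfl
        have e3 : vNr s ε z k hd he R = R + ((R * R) - SbP k) * gP k hd he *
            ((if ε then 1 else -1) * (z.a - s * z.b)) - 2 * (SbP k * R *
            (gP k hd he * gP k hd he)) * ((1 + s) * z.yr) := by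
          rw [← nri_sg]; rfl
        have e4 : vNi s ε z k hd he R = R * ((if ε then 1 else -1) * b0P k hd he) +
            ((R * R) - SbP k) * gP k hd he * (z.a + z.b) -
            2 * (SbP k * R * (gP k hd he * gP k hd he)) *
            ((1 + s) * ((if ε then 1 else -1) * z.be)) := by
          rw [← nri_sg, ← nri_sg]; rfl
        rw [e1, e2, e3, e4]
        linear_combination E)
    show NR s he k hd (vstep s ε false z k hd he R)
    unfold NR
    simp only [vstep, vwr, vwi, nri_sg]
    exact K

end Pool.Agent.Helper6.MONO
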